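import Pool.Agent.helper42.GB.SpecR

/-!
# Project gb, module MON: Suslin's monic polynomial lemma over a local ring

`helper35`, problem MP_7933bc_al. A unimodular row of length at least three over `R[X]`, `R` a
local ring, with a monic entry is elementary equivalent to a unit vector.
-/

open Polynomial Matrix

namespace GB

universe u

section MON

variable {R : Type u} [CommRing R]

/-- the coefficients of `X ^ k` of the elements of degree at most `k` of an ideal `I` -/
noncomputable def MON_lead (I : Ideal R[X]) (k : ℕ) : Ideal R :=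
  Submodule.map (Polynomial.lcoeff R k)
    ((I.restrictScalars R) ⊓ Polynomial.degreeLT R (k + 1))

theorem MON_mem_lead {I : Ideal R[X]} {k : ℕ} {c : R} :
    c ∈ MON_lead I k ↔ ∃ r ∈ I, r.degree < ((k + 1 : ℕ) : WithBot ℕ) ∧ r.coeff k = c := by
  unfold MON_lead
  constructor
  · intro h
    obtain ⟨r, ⟨h1, h2⟩, h3⟩ := h
    exact ⟨r, h1, Polynomial.mem_degreeLT.1 h2, h3⟩
  · rintro ⟨r, h1, h2, h3⟩
    exact ⟨r, ⟨h1, Polynomial.mem_degreeLT.2 h2⟩, h3⟩

/-- with a monic polynomial of degree `k + 1` in `I`, all coefficients of the elements of degree at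
most `k` of `I` are in `MON_lead I k` -/
theorem MON_coeff_mem {I : Ideal R[X]} {k : ℕ} {f : R[X]} (hf : f ∈ I) (hm : f.Monic)
    (hk : f.natDegree = k + 1) (n : ℕ) :
    ∀ r ∈ I, r.degree < ((k + 1 : ℕ) : WithBot ℕ) → n ≤ k → r.coeff (k - n) ∈ MON_lead I k := by
  induction n with
  | zero =>
    intro r hr hd _
    exact MON_mem_lead.2 ⟨r, hr, hd, by simp⟩
  | succ n ih =>
    intro r hr hd hn
    have hfk : f.coeff (k + 1) = 1 := by rw [← hk]; exact hm
    have hr' : X * r - C (r.coeff k) * f ∈ I := I.sub_mem (I.mul_mem_left _ hr) (I.mul_mem_left _ hf)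
    have hd' : (X * r - C (r.coeff k) * f).degree < ((k + 1 : ℕ) : WithBot ℕ) := by
      rw [Polynomial.degree_lt_iff_coeff_zero]
      intro m hm'
      obtain ⟨m, rfl⟩ : ∃ m', m = m' + 1 := ⟨m - 1, by omega⟩
      rw [coeff_sub, coeff_X_mul, coeff_C_mul]
      rcases Nat.lt_or_ge k m with h | h
      · have h1 : r.coeff m = 0 := (Polynomial.degree_lt_iff_coeff_zero _ _).1 hd m h
        have h2 : f.coeff (m + 1) = 0 := Polynomial.coeff_eq_zero_of_natDegree_lt (by omega)
        rw [h1, h2, mul_zero, sub_zero]
      · have : m = k := by omega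
        subst this
        rw [hfk, mul_one, sub_self]
    have h1 := ih _ hr' hd' (by omega)
    have h2 : r.coeff k ∈ MON_lead I k := MON_mem_lead.2 ⟨r, hr, hd, rfl⟩
    have h3 : r.coeff (k - (n + 1)) =
        (X * r - C (r.coeff k) * f).coeff (k - n) + f.coeff (k - n) * r.coeff k := by
      obtain ⟨t, ht⟩ : ∃ t, k - n = t + 1 := ⟨k - n - 1, by omega⟩
      have ht' : k - (n + 1) = t := by omega
      rw [ht, ht', coeff_sub, coeff_X_mul, coeff_C_mul]
      ring
    rw [h3]
    exact (MON_lead I k).add_mem h1 ((MON_lead I k).mul_mem_left _ h2)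

/-- a unimodular row with a monic entry of positive degree has another entry with a unit
coefficient -/
theorem MON_exists_unit [IsLocalRing R] {ι : Type} [Fintype ι] (v : ι → R[X])
    (hv : Um v) (i : ι) (hi : (v i).Monic) (hk : (v i).natDegree ≠ 0) :
    ∃ j, j ≠ i ∧ ∃ n, IsUnit ((v j).coeff n) := by
  classical
  by_contra hcon
  push Not at hcon
  obtain ⟨w, hw⟩ := hv
  have h0 : ∀ j, j ≠ i → (v j).map (IsLocalRing.residue R) = 0 := by
    intro j hj
    ext n
    rw [coeff_map, coeff_zero, IsLocalRing.residue_eq_zero_iff]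
    exact (IsLocalRing.mem_maximalIdeal _).2 (hcon j hj n)
  have h1 := congrArg (Polynomial.map (IsLocalRing.residue R)) hw
  rw [dotProduct, Polynomial.map_sum, Finset.sum_eq_single i, Polynomial.map_mul,
    Polynomial.map_one] at h1
  · have h2 : IsUnit ((v i).map (IsLocalRing.residue R)) := IsUnit.of_mul_eq_one _ h1
    have h3 := Polynomial.natDegree_eq_zero_of_isUnit h2
    rw [hi.natDegree_map] at h3
    exact hk h3
  · intro j _ hj
    rw [Polynomial.map_mul, h0 j hj, zero_mul]
  · intro h
    exact absurd (Finset.mem_univ _) h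

theorem MON_aux [IsLocalRing R] {ι : Type} [Fintype ι] [DecidableEq ι] (hι : 3 ≤ Fintype.card ι)
    (j0 : ι) (k : ℕ) : ∀ (v : ι → R[X]), Um v → ∀ i : ι, (v i).Monic → (v i).natDegree = k →
      EEq (Pi.single j0 1) v := by
  induction k with
  | zero =>
    intro v _ i hi hk
    exact EEq_single_of_one j0 i v ((Polynomial.Monic.natDegree_eq_zero hi).1 hk)
  | succ k ih =>
    intro v hv i hi hk
    -- reduce the other entries modulo the monic entry
    have hE := EEq_add_others i v (fun l => if l = i then 0 else -(v l /ₘ v i)) (by simp)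
    set v' := v + v i • (fun l => if l = i then 0 else -(v l /ₘ v i)) with hv'
    have hv'i : v' i = v i := by simp [hv']
    have hv'l : ∀ l, l ≠ i → v' l = v l %ₘ v i := by
      intro l hl
      rw [Polynomial.modByMonic_eq_sub_mul_div]
      simp [hv', hl, sub_eq_add_neg]
    have hdeg : ∀ l, l ≠ i → (v' l).degree < ((k + 1 : ℕ) : WithBot ℕ) := by
      intro l hl
      rw [hv'l l hl]
      have h := Polynomial.degree_modByMonic_lt (v l) hi
      rwa [Polynomial.degree_eq_natDegree hi.ne_zero, hk] at h
    have hUm : Um v' := hE.um hv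
    have hi' : (v' i).Monic := by rw [hv'i]; exact hi
    have hk' : (v' i).natDegree = k + 1 := by rw [hv'i]; exact hk
    obtain ⟨j, hji, n, hn⟩ := MON_exists_unit v' hUm i hi' (by omega)
    -- the ideal generated by two entries contains a monic polynomial of degree `k`
    have hI : (1 : R) ∈ MON_lead (Ideal.span {v' i, v' j}) k := by
      have h1 : v' i ∈ Ideal.span {v' i, v' j} := Ideal.subset_span (by simp)
      have h2 : v' j ∈ Ideal.span {v' i, v' j} := Ideal.subset_span (by simp)
      have hnk : n ≤ k := by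
        by_contra hcon
        have := (Polynomial.degree_lt_iff_coeff_zero _ _).1 (hdeg j hji) n (by omega)
        rw [this] at hn
        exact not_isUnit_zero hn
      have h3 := MON_coeff_mem h1 hi' hk' (k - n) _ h2 (hdeg j hji) (by omega)
      rw [show k - (k - n) = n by omega] at h3
      rw [← Ideal.eq_top_iff_one]
      exact Ideal.eq_top_of_isUnit_mem _ h3 hn
    obtain ⟨g, hg, hgd, hgc⟩ := MON_mem_lead.1 hI
    obtain ⟨a, b, hab⟩ := Ideal.mem_span_pair.1 hg
    -- a third index
    obtain ⟨l, hl⟩ : ∃ l, l ∉ ({i, j} : Finset ι) := by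
      by_contra hcon
      push Not at hcon
      have h1 : (Finset.univ : Finset ι) ⊆ {i, j} := fun x _ => hcon x
      have h2 := Finset.card_le_card h1
      have h3 := Finset.card_le_two (a := i) (b := j)
      rw [Finset.card_univ] at h2
      omega
    have hli : l ≠ i := fun h => hl (by simp [h])
    have hlj : l ≠ j := fun h => hl (by simp [h])
    set t : R[X] := C (1 - (v' l).coeff k) with ht
    have hE2 := EEq_add_one l v' (Pi.single i (a * t) + Pi.single j (b * t))
      (by simp [hli, hlj])
    have hdot : v' ⬝ᵥ (Pi.single i (a * t) + Pi.single j (b * t)) = t * g := by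
      rw [dotProduct_add, dotProduct_single, dotProduct_single, ← hab]
      ring
    rw [hdot] at hE2
    have hd2 : (v' l + t * g).degree < ((k + 1 : ℕ) : WithBot ℕ) := by
      rw [Polynomial.degree_lt_iff_coeff_zero]
      intro m hm
      rw [coeff_add, ht, coeff_C_mul, (Polynomial.degree_lt_iff_coeff_zero _ _).1 (hdeg l hli) m hm,
        (Polynomial.degree_lt_iff_coeff_zero _ _).1 hgd m hm, mul_zero, zero_add]
    have hc2 : (v' l + t * g).coeff k = 1 := by
      rw [coeff_add, ht, coeff_C_mul, hgc]
      ring
    have hnd : (v' l + t * g).natDegree = k := by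
      refine le_antisymm ?_ (Polynomial.le_natDegree_of_ne_zero (by rw [hc2]; exact one_ne_zero))
      refine Polynomial.natDegree_le_iff_coeff_eq_zero.2 fun m hm => ?_
      exact (Polynomial.degree_lt_iff_coeff_zero _ _).1 hd2 m hm
    have hm2 : (v' l + t * g).Monic := by
      rw [Polynomial.Monic, Polynomial.leadingCoeff, hnd, hc2]
    have h4 := ih (Function.update v' l (v' l + t * g)) (hE2.um hUm) l
      (by rw [Function.update_self]; exact hm2) (by rw [Function.update_self]; exact hnd)
    exact (h4.trans hE2.symm).trans hE.symm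

end MON

theorem MON : MON_stmt.{u} := by
  intro R _ _ ι _ _ hι v hv i hi j
  exact MON_aux hι j _ v hv i hi rfl

end GB
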